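import Pool.Agent.H80.AN.TargetsA
import Pool.Agent.H45.D3.PRF

/-!
# Row PRF of allh_modules (helper32): the logarithmic profile
-/

set_option autoImplicit false

namespace Pool.Agent.H32.AN

theorem pf_PRF : Pool.Agent.H22.AN.T_PRF := Pool.Agent.H45.D3.pf_PRF

end Pool.Agent.H32.AN
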