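import Pool.Agent.H80.AN.TargetsA

/-!
# Row RAD of allh_modules (helper32, after helper8's row of d3h_modules): the radial energy
-/

set_option autoImplicit false

namespace Pool.Agent.H32.AN

open MeasureTheory Metric Set Filter Topology
open Pool.Agent.H87.SN Pool.Agent.H87.SH Pool.Agent.H87.AX Pool.Agent.H22.AN
open scoped ContDiff RealInnerProductSpace ENNReal

theorem rad_one {d m : ℕ} (hMNT : Pool.Agent.H22.AN.T_MNT) {G : V d → V d →L[ℝ] E m}
    (hG : MemLp G 2 (volume.restrict (ball (0 : V d) 2))) (hS : Stat1 G) {τ om : ℝ}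
    (hτ : 0 < τ) (hτ1 : τ < 1) (hd : th G 0 1 - th G 0 τ ≤ om) :
    IntegrableOn (fun y => ‖G y y‖ ^ 2) (ball 0 1 \ ball 0 τ) ∧
    ∫ y in ball 0 1 \ ball 0 τ, ‖G y y‖ ^ 2 ≤ om / 2 := by
  have hc : ball (0 : V d) 1 ⊆ ball 0 2 := ball_subset_ball (by norm_num)
  obtain ⟨hi, hle⟩ := hMNT d m G hG hS 0 τ 1 hτ hτ1 hc
  simp only [sub_zero] at hi hle
  have hmS : MeasurableSet (ball (0 : V d) 1 \ ball 0 τ) :=
    measurableSet_ball.diff measurableSet_ball
  have hsub : ball (0 : V d) 1 \ ball 0 τ ⊆ ball (0 : V d) 2 := sdiff_subset.trans hc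
  have hmeas : AEStronglyMeasurable (fun y => ‖G y y‖ ^ 2)
      (volume.restrict (ball (0 : V d) 1 \ ball 0 τ)) := by
    have h1 : AEStronglyMeasurable G (volume.restrict (ball (0 : V d) 1 \ ball 0 τ)) :=
      hG.aestronglyMeasurable.mono_set hsub
    have h2 : AEStronglyMeasurable (fun y : V d => y)
        (volume.restrict (ball (0 : V d) 1 \ ball 0 τ)) :=
      continuous_id.aestronglyMeasurable
    have h3 : AEStronglyMeasurable (fun y => G y y)
        (volume.restrict (ball (0 : V d) 1 \ ball 0 τ)) :=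
      isBoundedBilinearMap_apply.continuous.comp_aestronglyMeasurable (h1.prodMk h2)
    exact (continuous_norm.pow 2).comp_aestronglyMeasurable h3
  have hpt : ∀ y ∈ ball (0 : V d) 1 \ ball 0 τ,
      ‖G y y‖ ^ 2 ≤ (‖y‖ ^ (d + 2))⁻¹ * ‖G y y‖ ^ 2 := by
    intro y hy
    have h1 : ‖y‖ < 1 := mem_ball_zero_iff.1 hy.1
    have h2 : τ ≤ ‖y‖ := by
      have := hy.2
      rwa [mem_ball_zero_iff, not_lt] at this
    have h3 : 0 < ‖y‖ ^ (d + 2) := pow_pos (lt_of_lt_of_le hτ h2) _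
    have h4 : ‖y‖ ^ (d + 2) ≤ 1 := pow_le_one₀ (norm_nonneg _) h1.le
    have h5 : 1 ≤ (‖y‖ ^ (d + 2))⁻¹ := (one_le_inv₀ h3).2 h4
    exact le_mul_of_one_le_left (sq_nonneg _) h5
  have hint : IntegrableOn (fun y => ‖G y y‖ ^ 2) (ball 0 1 \ ball 0 τ) := by
    refine Integrable.mono' hi hmeas ?_
    refine (ae_restrict_mem hmS).mono fun y hy => ?_
    rw [Real.norm_of_nonneg (by positivity)]
    exact hpt y hy
  refine ⟨hint, ?_⟩
  have h1 : ∫ y in ball 0 1 \ ball 0 τ, ‖G y y‖ ^ 2 ≤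
      ∫ y in ball 0 1 \ ball 0 τ, (‖y‖ ^ (d + 2))⁻¹ * ‖G y y‖ ^ 2 :=
    setIntegral_mono_on hint hi hmS hpt
  linarith

theorem nzs_nonneg' {d m : ℕ} (L : V d →L[ℝ] E m) : 0 ≤ nzs L := by
  unfold nzs
  exact Finset.sum_nonneg fun i _ => sq_nonneg _

theorem nzs_le_nsq {d m : ℕ} (L : V d →L[ℝ] E m) : nzs L ≤ nsq L := by
  unfold nzs nsq
  rw [Fin.sum_univ_succ (n := d + 1), Fin.sum_univ_succ (n := d)]
  have h1 : 0 ≤ ‖L (bv 0)‖ ^ 2 := sq_nonneg _
  have h2 : 0 ≤ ‖L (bv (Fin.succ 0))‖ ^ 2 := sq_nonneg _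
  linarith

theorem Pm_eq {d : ℕ} (x : V d) :
    Pm d x = x - ∑ i : Fin d, x i.succ.succ • (bv i.succ.succ : V d) := by
  ext j
  rw [PiLp.sub_apply]
  have h1 : (∑ i : Fin d, x i.succ.succ • (bv i.succ.succ : V d)) j =
      ∑ i : Fin d, x i.succ.succ * (bv i.succ.succ : V d) j := by
    rw [WithLp.ofLp_sum, Finset.sum_apply]
    rfl
  rw [h1]
  change (if (j : ℕ) < 2 then x j else 0) = _
  by_cases hj : (j : ℕ) < 2
  · rw [if_pos hj]
    have h2 : ∀ i : Fin d, x i.succ.succ * (bv i.succ.succ : V d) j = 0 := by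
      intro i
      have h3 : j ≠ i.succ.succ := by
        intro h
        rw [h] at hj
        simp at hj
      simp [bv, h3]
    simp [h2]
  · rw [if_neg hj]
    obtain ⟨k, hk⟩ : ∃ k : Fin d, j = k.succ.succ := by
      refine ⟨⟨j.1 - 2, by omega⟩, ?_⟩
      ext
      simp
      omega
    rw [Finset.sum_eq_single k]
    · rw [hk]; simp [bv]
    · intro i _ hik
      have h3 : j ≠ i.succ.succ := by
        intro h
        rw [hk] at h
        exact hik (Fin.succ_injective _ (Fin.succ_injective _ h)).symm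
      simp [bv, h3]
    · intro h; exact absurd (Finset.mem_univ k) h

theorem sum_coord_sq {d : ℕ} (x : V d) : ∑ i : Fin d, x i.succ.succ ^ 2 ≤ ‖x‖ ^ 2 := by
  rw [EuclideanSpace.norm_sq_eq]
  simp only [Real.norm_eq_abs, sq_abs]
  rw [Fin.sum_univ_succ (n := d + 1), Fin.sum_univ_succ (n := d)]
  have h1 : 0 ≤ x 0 ^ 2 := sq_nonneg _
  have h2 : 0 ≤ x (Fin.succ 0) ^ 2 := sq_nonneg _
  linarith

theorem pf_RAD (hMUF : Pool.Agent.H22.AN.T_MUF) (hMNT : Pool.Agent.H22.AN.T_MNT)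
    (hLA3 : Pool.Agent.H87.SN.T_LA3) : Pool.Agent.H22.AN.T_RAD := by
  intro d m Λ G hGD τ om e x₀ hτ hτ1 hF
  obtain ⟨i0, l0⟩ := rad_one hMNT hGD.memG hGD.stat hτ (by linarith) hF.p0
  have hom : 0 ≤ om := by
    have h1 : 0 ≤ ∫ y in ball (0 : V d) 1 \ ball 0 τ, ‖G y y‖ ^ 2 :=
      integral_nonneg fun y => by positivity
    linarith
  set A : Set (V d) := {x : V d | x ∈ ball 0 (7 / 8) ∧ τ ≤ ‖x‖} with hA
  have hmA : MeasurableSet A := by
    have h1 : A = ball 0 (7 / 8) ∩ {x : V d | τ ≤ ‖x‖} := rfl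
    rw [h1]
    exact measurableSet_ball.inter (isClosed_le continuous_const continuous_norm).measurableSet
  have hA0 : A ⊆ ball 0 1 \ ball 0 τ := by
    rintro x ⟨h1, h2⟩
    refine ⟨ball_subset_ball (by norm_num) h1, ?_⟩
    rw [mem_ball_zero_iff, not_lt]
    exact h2
  have iA0 := i0.mono_set hA0
  have lA0 : ∫ y in A, ‖G y y‖ ^ 2 ≤ om / 2 :=
    (setIntegral_mono_set i0 (Eventually.of_forall fun y => by positivity)
      hA0.eventuallyLE).trans l0
  -- the energy in the last directions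
  have hms : AEStronglyMeasurable (fun x => nzs (G x)) (volume.restrict (ball (0 : V d) 2)) := by
    have h1 : AEStronglyMeasurable G (volume.restrict (ball (0 : V d) 2)) :=
      hGD.memG.aestronglyMeasurable
    have h2 : Continuous fun L : V d →L[ℝ] E m => nzs L := by
      unfold nzs
      exact continuous_finsetSum _ fun i _ =>
        ((ContinuousLinearMap.apply ℝ (E m) (bv i.succ.succ : V d)).continuous.norm).pow 2
    exact h2.comp_aestronglyMeasurable h1
  have hI2 : IntegrableOn (fun x => nzs (G x)) (ball (0 : V d) 2) := by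
    obtain ⟨-, -, -, hM, -, -⟩ := hMUF d m G hGD.memG
    refine Integrable.mono' (hM (ball 0 2) measurableSet_ball le_rfl).1 hms
      (Eventually.of_forall fun x => ?_)
    rw [Real.norm_of_nonneg (nzs_nonneg' _)]
    exact nzs_le_nsq _
  have hI7 : IntegrableOn (fun x => nzs (G x)) (ball (0 : V d) (7 / 8)) :=
    hI2.mono_set (ball_subset_ball (by norm_num))
  have hA7 : A ⊆ ball 0 (7 / 8) := fun x hx => hx.1
  have iAz := hI7.mono_set hA7
  have lAz : ∫ y in A, nzs (G y) ≤ om :=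
    (setIntegral_mono_set hI7 (Eventually.of_forall fun y => nzs_nonneg' _)
      hA7.eventuallyLE).trans hF.nz
  -- the pointwise inequality
  have hpt : ∀ x ∈ A, nzs (G x) + ‖G x (Pm d x)‖ ^ 2 ≤ 3 * nzs (G x) + 2 * ‖G x x‖ ^ 2 := by
    rintro x ⟨h1, h2⟩
    rw [mem_ball_zero_iff] at h1
    rw [Pm_eq, map_sub, map_sum]
    simp only [map_smul]
    have h3 := hLA3.2 d m (G x) (fun i => x i.succ.succ)
    have h4 := sum_coord_sq x
    have h5 : ∑ i : Fin d, x i.succ.succ ^ 2 ≤ 1 := by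
      have h6 := norm_nonneg x
      nlinarith
    have h7 : ‖∑ i : Fin d, x i.succ.succ • G x (bv i.succ.succ)‖ ^ 2 ≤ nzs (G x) :=
      h3.trans (mul_le_of_le_one_left (nzs_nonneg' _) h5)
    have hq : ∀ u v : E m, ‖u - v‖ ^ 2 ≤ 2 * ‖u‖ ^ 2 + 2 * ‖v‖ ^ 2 := by
      intro u v
      have h4 := norm_sub_le u v
      have h5 := norm_nonneg (u - v)
      nlinarith [sq_nonneg (‖u‖ - ‖v‖), norm_nonneg u, norm_nonneg v]
    have h8 := hq (G x x) (∑ i : Fin d, x i.succ.succ • G x (bv i.succ.succ))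
    linarith
  have j1 : Integrable (fun x => 3 * nzs (G x)) (volume.restrict A) :=
    Integrable.const_mul iAz _
  have j2 : Integrable (fun x => 2 * ‖G x x‖ ^ 2) (volume.restrict A) :=
    Integrable.const_mul iA0 _
  have h1 : ∫ x in A, (nzs (G x) + ‖G x (Pm d x)‖ ^ 2) ≤
      ∫ x in A, (3 * nzs (G x) + 2 * ‖G x x‖ ^ 2) := by
    refine integral_mono_of_nonneg (Eventually.of_forall fun x => ?_) (j1.add j2)
      ((ae_restrict_mem hmA).mono hpt)
    exact add_nonneg (nzs_nonneg' _) (sq_nonneg _)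
  have h2 : ∫ x in A, (3 * nzs (G x) + 2 * ‖G x x‖ ^ 2) =
      3 * (∫ x in A, nzs (G x)) + 2 * ∫ x in A, ‖G x x‖ ^ 2 := by
    rw [integral_add j1 j2, integral_const_mul, integral_const_mul]
  linarith

end Pool.Agent.H32.AN
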