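import Pool.Agent.H80.AN.TargetsA

/-! Row ZOM of `allh_modules` (helper32, copy of helper67's row of `d3h_modules` in all dimensions): zoom
of the map. -/

set_option autoImplicit false

namespace Pool.Agent.H32.AN.ZOM

open MeasureTheory Metric Set Filter Topology
open Pool.Agent.H87.SN Pool.Agent.H87.SH Pool.Agent.H87.AX Pool.Agent.H22.AN
open scoped ContDiff RealInnerProductSpace ENNReal

variable {d : ℕ}

/-! ### Linear algebra -/

theorem sum_coord {n : ℕ} (v : E n) : v = ∑ j, ⟪(bv j : E n), v⟫ • (bv j : E n) := by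
  have h := (EuclideanSpace.basisFun (Fin n) ℝ).sum_repr' v
  simpa [bv] using h.symm

theorem bv_inner {n : ℕ} (j k : Fin n) : ⟪(bv j : E n), bv k⟫ = if j = k then (1 : ℝ) else 0 := by
  simp [bv, EuclideanSpace.inner_single_left]

theorem inner_bv {n : ℕ} (v : E n) (j : Fin n) : ⟪v, (bv j : E n)⟫ = v j := by
  simp [bv, EuclideanSpace.inner_single_right]

theorem bv_inner' {n : ℕ} (v : E n) (j : Fin n) : ⟪(bv j : E n), v⟫ = v j := by
  rw [real_inner_comm, inner_bv]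

theorem parseval {n : ℕ} (g : E n ≃ₗᵢ[ℝ] E n) (j k : Fin n) :
    ∑ i, ⟪(bv j : E n), g (bv i)⟫ * ⟪(bv k : E n), g (bv i)⟫ = if j = k then (1 : ℝ) else 0 := by
  have h := ((EuclideanSpace.basisFun (Fin n) ℝ).map g).sum_inner_mul_inner (bv j) (bv k)
  rw [← bv_inner, ← h]
  refine Finset.sum_congr rfl fun i _ => ?_
  rw [OrthonormalBasis.map_apply, EuclideanSpace.basisFun_apply]
  rw [real_inner_comm (bv k)]
  rfl

/-- the sum of a bilinear map over the images of the standard basis -/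
theorem sum_bil {n : ℕ} {F : Type*} [NormedAddCommGroup F] [NormedSpace ℝ F]
    (g : E n ≃ₗᵢ[ℝ] E n) (B : E n →ₗ[ℝ] E n →ₗ[ℝ] F) :
    ∑ i, B (g (bv i)) (g (bv i)) = ∑ i, B (bv i) (bv i) := by
  have h1 : ∀ i, B (g (bv i)) (g (bv i)) =
      ∑ j, ∑ k, (⟪(bv j : E n), g (bv i)⟫ * ⟪(bv k : E n), g (bv i)⟫) • B (bv j) (bv k) := by
    intro i
    conv_lhs => rw [sum_coord (g (bv i))]
    simp only [map_sum, map_smul, LinearMap.sum_apply, LinearMap.smul_apply, Finset.smul_sum,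
      smul_smul]
    rw [Finset.sum_comm]
    refine Finset.sum_congr rfl fun j _ => Finset.sum_congr rfl fun k _ => ?_
    rw [mul_comm]
  simp only [h1]
  rw [Finset.sum_comm]
  refine Finset.sum_congr rfl fun j _ => ?_
  rw [Finset.sum_comm]
  simp only [← Finset.sum_smul, parseval, ite_smul, one_smul, zero_smul]
  simp

/-- the bilinear form `(v, w) ↦ ⟪P v, Q w⟫` -/
noncomputable def ibl {n : ℕ} {F : Type*} [NormedAddCommGroup F] [InnerProductSpace ℝ F]
    (P Q : E n →L[ℝ] F) : E n →ₗ[ℝ] E n →ₗ[ℝ] ℝ :=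
  ((innerₗ F).comp P.toLinearMap).compl₂ Q.toLinearMap

theorem sum_inner_g {n : ℕ} {F : Type*} [NormedAddCommGroup F] [InnerProductSpace ℝ F]
    (g : E n ≃ₗᵢ[ℝ] E n) (P Q : E n →L[ℝ] F) :
    ∑ i, ⟪P (g (bv i)), Q (g (bv i))⟫ = ∑ i, ⟪P (bv i), Q (bv i)⟫ :=
  sum_bil g (ibl P Q)

theorem nsq_g {n : ℕ} {F : Type*} [NormedAddCommGroup F] [InnerProductSpace ℝ F]
    (g : E n ≃ₗᵢ[ℝ] E n) (P : E n →L[ℝ] F) :
    ∑ i, ‖P (g (bv i))‖ ^ 2 = ∑ i, ‖P (bv i)‖ ^ 2 := by
  have h := sum_inner_g g P P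
  simpa only [real_inner_self_eq_norm_sq] using h

theorem nsq_zoom {m : ℕ} (r : ℝ) (g : V d ≃ₗᵢ[ℝ] V d) (P : V d →L[ℝ] E m) :
    nsq (r • P.comp (g.toContinuousLinearEquiv : V d →L[ℝ] V d)) = r ^ 2 * nsq P := by
  unfold nsq
  rw [← nsq_g g P, Finset.mul_sum]
  refine Finset.sum_congr rfl fun i _ => ?_
  rw [smul_apply, norm_smul, mul_pow, Real.norm_eq_abs, sq_abs]
  rfl

theorem statF_eq {n m : ℕ} (L : E n →L[ℝ] E m) (D : E n →L[ℝ] E n) :
    statF L D = nsq L * (∑ i, ⟪D (bv i), (bv i : E n)⟫) - 2 * ∑ i, ⟪L (bv i), L (D (bv i))⟫ := by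
  unfold statF
  congr 1
  · simp only [inner_bv]
  · congr 1
    refine Finset.sum_congr rfl fun i _ => ?_
    have h := sum_coord (D (bv i))
    conv_rhs => rw [h]
    rw [map_sum, inner_sum]
    refine Finset.sum_congr rfl fun j _ => ?_
    rw [map_smul, inner_smul_right, bv_inner', mul_comm]

/-- the conjugate of `D` by `g` -/
noncomputable def cj (g : V d ≃ₗᵢ[ℝ] V d) (D : V d →L[ℝ] V d) : V d →L[ℝ] V d :=
  ((g.toContinuousLinearEquiv : V d →L[ℝ] V d).comp D).comp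
    (g.symm.toContinuousLinearEquiv : V d →L[ℝ] V d)

theorem cj_apply (g : V d ≃ₗᵢ[ℝ] V d) (D : V d →L[ℝ] V d) (v : V d) : cj g D v = g (D (g.symm v)) := rfl

theorem statF_zoom {m : ℕ} (r : ℝ) (g : V d ≃ₗᵢ[ℝ] V d) (L : V d →L[ℝ] E m) (D : V d →L[ℝ] V d) :
    statF (r • L.comp (g.toContinuousLinearEquiv : V d →L[ℝ] V d)) D = r ^ 2 * statF L (cj g D) := by
  have h1 : ∑ i, ⟪D (bv i), (bv i : V d)⟫ = ∑ i, ⟪cj g D (bv i), (bv i : V d)⟫ := by
    have h := sum_inner_g g (cj g D) (ContinuousLinearMap.id ℝ (V d))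
    simp only [ContinuousLinearMap.id_apply] at h
    rw [← h]
    refine Finset.sum_congr rfl fun i _ => ?_
    rw [cj_apply, LinearIsometryEquiv.symm_apply_apply, LinearIsometryEquiv.inner_map_map]
  have h2 : ∑ i, ⟪L (g (bv i)), L (g (D (bv i)))⟫ = ∑ i, ⟪L (bv i), L (cj g D (bv i))⟫ := by
    have h := sum_inner_g g L (L.comp (cj g D))
    simp only [ContinuousLinearMap.comp_apply] at h
    rw [← h]
    refine Finset.sum_congr rfl fun i _ => ?_
    rw [cj_apply, LinearIsometryEquiv.symm_apply_apply]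
  rw [statF_eq, statF_eq, nsq_zoom, ← h1, ← h2]
  have h3 : ∑ i, ⟪(r • L.comp (g.toContinuousLinearEquiv : V d →L[ℝ] V d)) (bv i),
      (r • L.comp (g.toContinuousLinearEquiv : V d →L[ℝ] V d)) (D (bv i))⟫ =
      r ^ 2 * ∑ i, ⟪L (g (bv i)), L (g (D (bv i)))⟫ := by
    rw [Finset.mul_sum]
    refine Finset.sum_congr rfl fun i _ => ?_
    rw [smul_apply, smul_apply, inner_smul_left,
      inner_smul_right]
    simp only [RCLike.conj_to_real]
    rw [← mul_assoc, ← sq]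
    rfl
  rw [h3]
  ring

theorem statF_smul {m : ℕ} (s : ℝ) (L : V d →L[ℝ] E m) (D : V d →L[ℝ] V d) :
    statF L (s • D) = s * statF L D := by
  rw [statF_eq, statF_eq]
  simp only [smul_apply, map_smul, inner_smul_left, inner_smul_right,
    RCLike.conj_to_real, ← Finset.mul_sum]
  ring

/-! ### The zoom -/

/-- the inverse of the zoom -/
noncomputable def zi (c : V d) (r : ℝ) (g : V d ≃ₗᵢ[ℝ] V d) (x : V d) : V d := g.symm (r⁻¹ • (x - c))

theorem zi_zm (c : V d) {r : ℝ} (hr : 0 < r) (g : V d ≃ₗᵢ[ℝ] V d) (y : V d) :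
    zi c r g (zm c r g y) = y := by
  unfold zi zm
  rw [add_sub_cancel_left, smul_smul, inv_mul_cancel₀ hr.ne', one_smul,
    LinearIsometryEquiv.symm_apply_apply]

theorem zm_zi (c : V d) {r : ℝ} (hr : 0 < r) (g : V d ≃ₗᵢ[ℝ] V d) (x : V d) :
    zm c r g (zi c r g x) = x := by
  unfold zi zm
  rw [LinearIsometryEquiv.apply_symm_apply, smul_smul, mul_inv_cancel₀ hr.ne', one_smul,
    add_sub_cancel]

theorem hasFDerivAt_zm (c : V d) (r : ℝ) (g : V d ≃ₗᵢ[ℝ] V d) (y : V d) :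
    HasFDerivAt (zm c r g) (r • (g.toContinuousLinearEquiv : V d →L[ℝ] V d)) y := by
  have h : HasFDerivAt (fun y : V d => r • g y) (r • (g.toContinuousLinearEquiv : V d →L[ℝ] V d)) y :=
    (g.toContinuousLinearEquiv : V d →L[ℝ] V d).hasFDerivAt.const_smul r
  exact h.const_add c

theorem contDiff_zm (c : V d) (r : ℝ) (g : V d ≃ₗᵢ[ℝ] V d) {k : WithTop ℕ∞} :
    ContDiff ℝ k (zm c r g) :=
  contDiff_const.add (g.contDiff.const_smul r)

theorem continuous_zm (c : V d) (r : ℝ) (g : V d ≃ₗᵢ[ℝ] V d) : Continuous (zm c r g) :=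
  (contDiff_zm c r g (k := 0)).continuous

theorem hasFDerivAt_zi (c : V d) (r : ℝ) (g : V d ≃ₗᵢ[ℝ] V d) (x : V d) :
    HasFDerivAt (zi c r g) (r⁻¹ • (g.symm.toContinuousLinearEquiv : V d →L[ℝ] V d)) x := by
  have h : HasFDerivAt (fun x : V d => r⁻¹ • (x - c)) (r⁻¹ • ContinuousLinearMap.id ℝ (V d)) x :=
    ((hasFDerivAt_id x).sub_const c).const_smul r⁻¹
  have h2 := (g.symm.toContinuousLinearEquiv : V d →L[ℝ] V d).hasFDerivAt.comp x h
  have h3 : (g.symm.toContinuousLinearEquiv : V d →L[ℝ] V d).comp (r⁻¹ • ContinuousLinearMap.id ℝ (V d)) =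
      r⁻¹ • (g.symm.toContinuousLinearEquiv : V d →L[ℝ] V d) := by
    ext v
    simp
  rw [h3] at h2
  exact h2

theorem contDiff_zi (c : V d) (r : ℝ) (g : V d ≃ₗᵢ[ℝ] V d) {k : WithTop ℕ∞} :
    ContDiff ℝ k (zi c r g) :=
  g.symm.contDiff.comp ((contDiff_id.sub contDiff_const).const_smul r⁻¹)

/-- the integral over the zoom -/
theorem integral_zm (c : V d) {r : ℝ} (g : V d ≃ₗᵢ[ℝ] V d) (F : V d → ℝ) :
    ∃ C : ℝ, ∫ y, F (zm c r g y) = C * ∫ x, F x := by
  refine ⟨|(r ^ Module.finrank ℝ (V d))⁻¹|, ?_⟩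
  have h1 : ∫ y, F (zm c r g y) = ∫ w, F (c + r • w) :=
    g.measurePreserving.integral_comp g.toHomeomorph.measurableEmbedding (fun w => F (c + r • w))
  have h2 : ∫ w, F (c + r • w) = |(r ^ Module.finrank ℝ (V d))⁻¹| • ∫ v, F (c + v) :=
    Measure.integral_comp_smul volume (fun v => F (c + v)) r
  have h3 : ∫ v, F (c + v) = ∫ x, F x := integral_add_left_eq_self F c
  rw [h1, h2, h3, smul_eq_mul]

/-! ### The data -/

section data

variable {m : ℕ} {L Λ ε : ℝ} {U : Set (V d)} {u : V d → E m} {G : V d → V d →L[ℝ] E m}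
  {c : V d} {r : ℝ} {g : V d ≃ₗᵢ[ℝ] V d}

theorem stat_zoom (hS : Stat1 G) (hr : 0 < r) (hb : ball c (2 * r) ⊆ ball 0 2) :
    Stat1 (zG c r g G) := by
  intro X hX hXc hXs
  set Y : V d → V d := fun x => g (X (zi c r g x)) with hY
  have hYd : ∀ x, HasFDerivAt Y (r⁻¹ • cj g (fderiv ℝ X (zi c r g x))) x := by
    intro x
    have h1 := hasFDerivAt_zi c r g x
    have h2 : HasFDerivAt X (fderiv ℝ X (zi c r g x)) (zi c r g x) :=
      (hX.differentiable (by norm_num) _).hasFDerivAt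
    have h3 := (g.toContinuousLinearEquiv : V d →L[ℝ] V d).hasFDerivAt.comp x (h2.comp x h1)
    have h4 : (g.toContinuousLinearEquiv : V d →L[ℝ] V d).comp
        ((fderiv ℝ X (zi c r g x)).comp (r⁻¹ • (g.symm.toContinuousLinearEquiv : V d →L[ℝ] V d))) =
        r⁻¹ • cj g (fderiv ℝ X (zi c r g x)) := by
      ext1 v
      simp [cj]
    rw [h4] at h3
    exact h3
  have hYC : ContDiff ℝ 1 Y := g.contDiff.comp (hX.comp (contDiff_zi c r g))
  have hYK : ∀ x, x ∉ zm c r g '' tsupport X → Y x = 0 := by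
    intro x hx
    have : zi c r g x ∉ tsupport X := fun h => hx ⟨zi c r g x, h, zm_zi c hr g x⟩
    rw [hY]
    simp only [image_eq_zero_of_notMem_tsupport this, map_zero]
  have hK : IsCompact (zm c r g '' tsupport X) := hXc.isCompact.image (continuous_zm c r g)
  have hYs : tsupport Y ⊆ zm c r g '' tsupport X :=
    closure_minimal (fun x hx => by_contra fun h => hx (hYK x h)) hK.isClosed
  have hYc : HasCompactSupport Y := HasCompactSupport.intro hK hYK
  have hYb : tsupport Y ⊆ ball 0 2 := by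
    refine hYs.trans ?_
    rintro _ ⟨y, hy, rfl⟩
    refine hb ?_
    have h1 := hXs hy
    rw [mem_ball_zero_iff] at h1
    rw [mem_ball, dist_eq_norm, zm, add_sub_cancel_left, norm_smul, Real.norm_eq_abs,
      abs_of_pos hr, LinearIsometryEquiv.norm_map]
    nlinarith
  have h0 := hS Y hYC hYc hYb
  obtain ⟨C, hC⟩ := integral_zm c (r := r) g (fun x => statF (G x) (fderiv ℝ Y x))
  have h1 : ∀ y, statF (zG c r g G y) (fderiv ℝ X y) =
      r ^ 3 * statF (G (zm c r g y)) (fderiv ℝ Y (zm c r g y)) := by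
    intro y
    rw [(hYd (zm c r g y)).fderiv, zi_zm c hr, statF_smul, zG, statF_zoom]
    field_simp
  simp only [h1]
  rw [integral_const_mul, hC, h0]
  simp

theorem ball_sub (hb : ball c (2 * r) ⊆ ball 0 2)
    (hi : ∀ (y : V d) (s : ℝ), zm c r g '' ball y s = ball (zm c r g y) (r * s)) {y : V d} {s : ℝ}
    (hs : ball y s ⊆ ball 0 2) : ball (zm c r g y) (r * s) ⊆ ball 0 2 := by
  rw [← hi y s]
  refine (image_mono hs).trans ?_
  rw [hi 0 2]
  have : zm c r g 0 = c := by simp [zm]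
  rw [this, mul_comm]
  exact hb

theorem zm_mem (hr : 0 < r) (hb : ball c (2 * r) ⊆ ball 0 2) {y : V d} (hy : y ∈ ball (0 : V d) 2) :
    zm c r g y ∈ ball (0 : V d) 2 := by
  refine hb ?_
  rw [mem_ball_zero_iff] at hy
  rw [mem_ball, dist_eq_norm, zm, add_sub_cancel_left, norm_smul, Real.norm_eq_abs,
    abs_of_pos hr, LinearIsometryEquiv.norm_map]
  nlinarith

theorem fderiv_zoom (hU : IsOpen U) (hu : ContDiffOn ℝ ∞ u U) {y : V d} (hy : zm c r g y ∈ U) :
    fderiv ℝ (fun y => u (zm c r g y)) y =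
      r • (fderiv ℝ u (zm c r g y)).comp (g.toContinuousLinearEquiv : V d →L[ℝ] V d) := by
  have h1 : HasFDerivAt u (fderiv ℝ u (zm c r g y)) (zm c r g y) :=
    ((hu.contDiffAt (hU.mem_nhds hy)).differentiableAt (by simp)).hasFDerivAt
  have h2 := (h1.comp y (hasFDerivAt_zm c r g y)).fderiv
  have h3 : (fderiv ℝ u (zm c r g y)).comp (r • (g.toContinuousLinearEquiv : V d →L[ℝ] V d)) =
      r • (fderiv ℝ u (zm c r g y)).comp (g.toContinuousLinearEquiv : V d →L[ℝ] V d) := by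
    ext1 v
    simp
  rw [h3] at h2
  exact h2

theorem fderiv2_zoom (hU : IsOpen U) (hu : ContDiffOn ℝ ∞ u U) {y : V d} (hy : zm c r g y ∈ U)
    (h k : V d) :
    fderiv ℝ (fderiv ℝ (fun y => u (zm c r g y))) y h k =
      r ^ 2 • fderiv ℝ (fderiv ℝ u) (zm c r g y) (g h) (g k) := by
  have hev : fderiv ℝ (fun y => u (zm c r g y)) =ᶠ[𝓝 y] fun y =>
      r • (fderiv ℝ u (zm c r g y)).comp (g.toContinuousLinearEquiv : V d →L[ℝ] V d) := by
    filter_upwards [(hU.preimage (continuous_zm c r g)).mem_nhds hy] with w hw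
    exact fderiv_zoom hU hu hw
  rw [hev.fderiv_eq]
  have h0 : ContDiffAt ℝ 1 (fderiv ℝ u) (zm c r g y) :=
    (hu.contDiffAt (hU.mem_nhds hy)).fderiv_right (m := 1) (by
      rw [one_add_one_eq_two]
      exact WithTop.coe_le_coe.2 (le_top : ((2 : ℕ∞)) ≤ ⊤))
  have h1 : HasFDerivAt (fderiv ℝ u) (fderiv ℝ (fderiv ℝ u) (zm c r g y)) (zm c r g y) :=
    (h0.differentiableAt (by norm_num)).hasFDerivAt
  have h2 := h1.comp y (hasFDerivAt_zm c r g y)
  have h3 := (((ContinuousLinearMap.compL ℝ (V d) (V d) (E m)).flip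
    (g.toContinuousLinearEquiv : V d →L[ℝ] V d)).hasFDerivAt.comp y h2).const_smul r
  have h4 := h3.fderiv
  have h5 : (fun y => r • (fderiv ℝ u (zm c r g y)).comp
      (g.toContinuousLinearEquiv : V d →L[ℝ] V d)) =
      (r • (⇑((ContinuousLinearMap.compL ℝ (V d) (V d) (E m)).flip
        (g.toContinuousLinearEquiv : V d →L[ℝ] V d)) ∘ (fderiv ℝ u ∘ zm c r g))) := by
    funext w
    rfl
  rw [h5, h4]
  simp [smul_smul, sq]

theorem lap_zoom (hU : IsOpen U) (hu : ContDiffOn ℝ ∞ u U) {y : V d} (hy : zm c r g y ∈ U) :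
    lap (fun y => u (zm c r g y)) y = r ^ 2 • lap u (zm c r g y) := by
  unfold lap
  simp only [fderiv2_zoom hU hu hy, ← Finset.smul_sum]
  congr 1
  exact sum_bil g ((ContinuousLinearMap.coeLM ℝ).comp
    (fderiv ℝ (fderiv ℝ u) (zm c r g y)).toLinearMap)

theorem en_zoom (hU : IsOpen U) (hu : ContDiffOn ℝ ∞ u U) {y : V d} (hy : zm c r g y ∈ U) :
    en (fun y => u (zm c r g y)) y = r ^ 2 * en u (zm c r g y) := by
  unfold en
  rw [fderiv_zoom hU hu hy, nsq_zoom]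

theorem hsq_zoom (hU : IsOpen U) (hu : ContDiffOn ℝ ∞ u U) {y : V d} (hy : zm c r g y ∈ U) :
    hsq (fun y => u (zm c r g y)) y = r ^ 4 * hsq u (zm c r g y) := by
  unfold hsq
  simp only [fderiv2_zoom hU hu hy, norm_smul, mul_pow]
  set B := fderiv ℝ (fderiv ℝ u) (zm c r g y) with hB
  have h1 : ∀ i, ∑ j, ‖B (g (bv i)) (g (bv j))‖ ^ 2 = ∑ j, ‖B (g (bv i)) (bv j)‖ ^ 2 :=
    fun i => nsq_g g (B (g (bv i)))
  have h2 : ∀ j, ∑ i, ‖B (g (bv i)) (bv j)‖ ^ 2 = ∑ i, ‖B (bv i) (bv j)‖ ^ 2 :=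
    fun j => nsq_g g (B.flip (bv j))
  simp only [← Finset.mul_sum, h1]
  rw [Finset.sum_comm]
  simp only [h2]
  rw [Finset.sum_comm]
  congr 1
  rw [Real.norm_eq_abs, abs_of_nonneg (by positivity)]
  ring

theorem ae_zoom (hZ : T_ZMU) (hG : MemLp G 2 (volume.restrict (ball (0 : V d) 2)))
    (hr : 0 < r) (hb : ball c (2 * r) ⊆ ball 0 2) {P : V d → Prop} (hP : ∀ᵐ x, P x) :
    ∀ᵐ y, P (zm c r g y) := by
  have h0 : volume {x | ¬ P x} = 0 := hP
  set N := toMeasurable volume {x | ¬ P x} with hN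
  have hN0 : volume N = 0 := by rw [hN, measure_toMeasurable, h0]
  have hNm : MeasurableSet N := measurableSet_toMeasurable _ _
  have h1 := (hZ d m G c r g hG hr hb).2.2.1 (N.indicator 1) univ
    (measurable_one.indicator hNm) MeasurableSet.univ
  have h2 : ∫⁻ x in zm c r g '' univ, N.indicator 1 x ≤ 0 := by
    calc ∫⁻ x in zm c r g '' univ, N.indicator 1 x ≤ ∫⁻ x, N.indicator 1 x :=
          setLIntegral_le_lintegral _ _
      _ = volume N := lintegral_indicator_one hNm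
      _ = 0 := hN0
      _ ≤ 0 := le_rfl
  rw [nonpos_iff_eq_zero.1 h2, mul_zero, Measure.restrict_univ] at h1
  have h3 : volume (zm c r g ⁻¹' N) = 0 := by
    rw [← lintegral_indicator_one (hNm.preimage (continuous_zm c r g).measurable), ← h1]
    rfl
  refine measure_mono_null (fun y hy => ?_) h3
  exact subset_toMeasurable volume {x | ¬ P x} hy

end data

end Pool.Agent.H32.AN.ZOM

namespace Pool.Agent.H32.AN

open MeasureTheory Metric Set Filter Topology
open Pool.Agent.H87.SN Pool.Agent.H87.SH Pool.Agent.H87.AX Pool.Agent.H22.AN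
open scoped ContDiff RealInnerProductSpace ENNReal
open ZOM

theorem pf_ZOM (hZ : Pool.Agent.H22.AN.T_ZMU) : Pool.Agent.H22.AN.T_ZOM := by
  intro d m L Λ ε U u G hM c r g hr hb
  obtain ⟨z1, -, -, z4, z5, -⟩ := hZ d m G c r g hM.gd.memG hr hb
  have hsc : ∀ (y : V d) (s : ℝ), 0 < s → ball y s ⊆ ball 0 2 →
      (mu (zG c r g G)).real (ball y s) = (r ^ d)⁻¹ * (mu G).real (ball (zm c r g y) (r * s)) := by
    intro y s hs hbs
    have h := z5 y s hs hbs
    unfold th at h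
    rw [div_eq_iff (pow_pos hs d).ne', mul_pow] at h
    rw [h]
    have h1 := (pow_pos hs d).ne'
    have h2 := (pow_pos hr d).ne'
    field_simp
  refine ⟨⟨⟨z1, stat_zoom hM.gd.stat hr hb, ?_⟩, ?_, inter_subset_left, ?_, ?_, ?_, ?_, ?_, ?_⟩, ?_⟩
  · intro y s hs hbs
    have h := hM.gd.den (zm c r g y) (r * s) (by positivity) (ball_sub hb z4 hbs)
    rw [hsc y s hs hbs]
    have h2 := (pow_pos hr d).ne'
    calc (r ^ d)⁻¹ * (mu G).real (ball (zm c r g y) (r * s)) ≤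
          (r ^ d)⁻¹ * (Λ * (r * s) ^ d) := by gcongr
      _ = Λ * s ^ d := by rw [mul_pow]; field_simp
  · exact isOpen_ball.inter (hM.opn.preimage (continuous_zm c r g))
  · exact hM.smooth.comp (contDiff_zm c r g).contDiffOn fun y hy => hy.2
  · have hUm : MeasurableSet (ball 0 2 ∩ zm c r g ⁻¹' U) :=
      (isOpen_ball.inter (hM.opn.preimage (continuous_zm c r g))).measurableSet
    rw [ae_restrict_iff' hUm]
    have h1 := (ae_restrict_iff' hM.opn.measurableSet).1 hM.ae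
    filter_upwards [ae_zoom hZ hM.gd.memG hr hb h1] with y hy hyU
    rw [fderiv_zoom hM.opn hM.smooth hyU.2, zG, hy hyU.2]
  · intro y hy v
    rw [fderiv_zoom hM.opn hM.smooth hy.2, lap_zoom hM.opn hM.smooth hy.2]
    rw [smul_apply, inner_smul_left, inner_smul_right]
    have h := hM.orth (zm c r g y) hy.2 (g v)
    have h2 : ⟪((fderiv ℝ u (zm c r g y)).comp (g.toContinuousLinearEquiv : V d →L[ℝ] V d)) v,
        lap u (zm c r g y)⟫ = 0 := h
    rw [h2]
    simp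
  · intro y hy
    rw [lap_zoom hM.opn hM.smooth hy.2, en_zoom hM.opn hM.smooth hy.2, norm_smul,
      Real.norm_eq_abs, abs_of_nonneg (by positivity)]
    have h := hM.lapb (zm c r g y) hy.2
    calc r ^ 2 * ‖lap u (zm c r g y)‖ ≤ r ^ 2 * (L * en u (zm c r g y)) := by gcongr
      _ = L * (r ^ 2 * en u (zm c r g y)) := by ring
  · intro y hy h
    rw [lap_zoom hM.opn hM.smooth hy.2, en_zoom hM.opn hM.smooth hy.2,
      fderiv_zoom hM.opn hM.smooth hy.2, fderiv2_zoom hM.opn hM.smooth hy.2,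
      inner_smul_left, inner_smul_right, smul_apply, norm_smul, mul_pow]
    have h1 := hM.ang (zm c r g y) hy.2 (g h)
    have h2 : ‖((fderiv ℝ u (zm c r g y)).comp (g.toContinuousLinearEquiv : V d →L[ℝ] V d)) h‖ =
        ‖fderiv ℝ u (zm c r g y) (g h)‖ := rfl
    rw [h2]
    simp only [RCLike.conj_to_real]
    rw [Real.norm_eq_abs, sq_abs, abs_mul, abs_mul, abs_of_nonneg (by positivity : 0 ≤ r ^ 2)]
    calc r ^ 2 * (r ^ 2 * |⟪fderiv ℝ (fderiv ℝ u) (zm c r g y) (g h) (g h),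
          lap u (zm c r g y)⟫|) ≤
          r ^ 2 * (r ^ 2 * (L * ‖fderiv ℝ u (zm c r g y) (g h)‖ ^ 2 * en u (zm c r g y))) := by
          gcongr
      _ = L * (r ^ 2 * ‖fderiv ℝ u (zm c r g y) (g h)‖ ^ 2) * (r ^ 2 * en u (zm c r g y)) := by
          ring
  · intro y hy hyU s hs hbs
    have h1 : zm c r g y ∉ U := fun h => hyU ⟨hy, h⟩
    have h := hM.sing (zm c r g y) (zm_mem hr hb hy) h1 (r * s) (by positivity)
      (ball_sub hb z4 hbs)
    rw [hsc y s hs hbs]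
    have h2 := (pow_pos hr d).ne'
    calc ε * s ^ d = (r ^ d)⁻¹ * (ε * (r * s) ^ d) := by rw [mul_pow]; field_simp
      _ ≤ (r ^ d)⁻¹ * (mu G).real (ball (zm c r g y) (r * s)) := by gcongr
  · intro y hy
    exact ⟨en_zoom hM.opn hM.smooth hy.2, hsq_zoom hM.opn hM.smooth hy.2⟩

end Pool.Agent.H32.AN
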